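import Pool.Agent.Helper17.SV.Stmts

/-! Module EVW (MP_c38931_co): the consequence of EV for orbits of the same length. -/

set_option autoImplicit false

open Finset

namespace Pool.Agent.Helper17.SV

open Pool.Agent.Helper17.SO

theorem evw_orb {v : ℕ} (G : Subgroup (Equiv.Perm (Fin v))) (x : Fin v) :
    orb G x = Nat.card (MulAction.orbit G x) := by
  unfold orb
  refine Nat.card_congr (Equiv.subtypeEquivRight ?_)
  intro y
  constructor
  · rintro ⟨g, hg, h⟩
    exact ⟨⟨g, hg⟩, h⟩
  · rintro ⟨g, h⟩
    exact ⟨g.1, g.2, h⟩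

theorem evw_dvd {v u : ℕ} (G : Subgroup (Equiv.Perm (Fin v))) (h : ∀ a, orb G a = u) :
    ∃ s, v = s * u := by
  classical
  have h1 := Nat.card_congr (MulAction.selfEquivSigmaOrbits G (Fin v))
  rw [Nat.card_eq_fintype_card, Fintype.card_fin, Nat.card_sigma] at h1
  have h2 : ∀ ω : Quotient (MulAction.orbitRel G (Fin v)),
      Nat.card (MulAction.orbit G (Quotient.out ω)) = u := by
    intro ω
    rw [← evw_orb, h]
  refine ⟨Fintype.card (Quotient (MulAction.orbitRel G (Fin v))), ?_⟩
  refine h1.trans ?_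
  rw [Finset.sum_congr rfl fun ω _ => h2 ω, Finset.sum_const, Finset.card_univ, smul_eq_mul]

theorem st_EVW (h1 : ST_EV) : ST_EVW := by
  classical
  intro v u W q G hv hG hu hW hq hWq hodd
  by_contra hcon
  obtain ⟨s, hs⟩ := evw_dvd G hu
  have hvpos : 0 < v := hv.pos
  have hspos : 0 < s := Nat.pos_of_ne_zero (by rintro rfl; omega)
  have hupos : 0 < u := Nat.pos_of_ne_zero (by rintro rfl; omega)
  have hsW : s ≤ W := by
    rw [hs] at hW
    exact Nat.le_of_mul_le_mul_right hW hupos
  have hqs : ¬ q ∣ s := fun h => absurd (Nat.le_of_dvd hspos h) (by omega)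
  have huo : Odd u := by
    rw [hs] at hv
    exact Nat.odd_mul.1 hv |>.2
  have hfac : v.factorization q = padicValNat q u := by
    rw [hs, Nat.factorization_mul hspos.ne' hupos.ne', Finsupp.add_apply,
      Nat.factorization_eq_zero_of_not_dvd hqs, zero_add, Nat.factorization_def _ hq]
  have hq2 : q ≠ 2 := by
    rintro rfl
    have h2 : v.factorization 2 = 0 :=
      Nat.factorization_eq_zero_of_not_dvd (fun h => by
        have := hv.not_two_dvd_nat
        exact this h)
    rw [h2] at hodd
    exact absurd hodd (by decide)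
  have h3 := h1 q hq hq2 (Fin v) G hG (fun x => by rw [hu]; exact huo)
    (fun g hg hr => Nat.not_even_iff_odd.1 (fun he => hcon ⟨g, hg, hr, he⟩))
  rw [Finset.sum_congr rfl fun x _ => by rw [hu x], Finset.sum_const, Finset.card_univ,
    Fintype.card_fin, smul_eq_mul, ← hfac] at h3
  exact absurd h3 (Nat.not_even_iff_odd.2 (hv.mul hodd))

end Pool.Agent.Helper17.SV
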