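import Pool.Agent.Helper17.SV.Stmts

/-! Module GRAM (MP_c38931_co): the Gram matrix of the nontrivial characters. -/

set_option autoImplicit false

open Finset

namespace Pool.Agent.Helper17.SV

open Pool.Agent.Helper17.SO

theorem gram_inv {v : ℕ} (A : Matrix (Fin v) (Fin v) ℤ) (g π : Equiv.Perm (Fin v))
    (hA : ∀ a i, A (g a) (π i) = A a i) (m : ℕ) :
    ∀ a i, A ((g ^ m) a) ((π ^ m) i) = A a i := by
  induction m with
  | zero =>
    intro a i
    simp
  | succ m ih =>
    intro a i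
    rw [pow_succ, pow_succ, Equiv.Perm.mul_apply, Equiv.Perm.mul_apply, ih, hA]

theorem gram_mod {v : ℕ} (g : Equiv.Perm (Fin v)) (x : Fin v) (D : ℕ) (h : (g ^ D) x = x)
    (t : ℕ) : (g ^ t) x = (g ^ (t % D)) x := by
  have h1 : ∀ k : ℕ, (g ^ (D * k)) x = x := by
    intro k
    induction k with
    | zero => simp
    | succ k ih => rw [Nat.mul_succ, pow_add, Equiv.Perm.mul_apply, h, ih]
  conv_lhs => rw [← Nat.mod_add_div t D, pow_add, Equiv.Perm.mul_apply, h1]

theorem st_GRAM : ST_GRAM := by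
  classical
  intro v n lam q r A g π ζ hq hζ hA hg hπ hAA m m' x e b e' he hex hfx hinj he' heb hfb hinjb i i'
  set Q := q ^ r with hQ
  have hQpos : 0 < Q := pow_pos hq.pos r
  have hr : 1 ≤ r := le_trans (he i).1 (he i).2
  have hζq : ζ ^ q = 1 := hζ.pow_eq_one
  have hqQ : q ∣ Q := dvd_pow_self q (by omega)
  have hζQ : ζ ^ Q = 1 := by
    obtain ⟨c, hc⟩ := hqQ
    rw [hc, pow_mul, hζq, one_pow]
  have hnorm : ‖ζ‖ = 1 := hζ.norm'_eq_one hq.ne_zero
  have hζne : ζ ≠ 1 := hζ.ne_one hq.one_lt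
  have hζc : ζ * (starRingEnd ℂ) ζ = 1 := by
    rw [Complex.mul_conj, Complex.normSq_eq_norm_sq, hnorm]
    simp
  have hsum : ∑ t ∈ range Q, ζ ^ t = 0 := by
    have h1 := geom_sum_mul ζ Q
    rw [hζQ, sub_self] at h1
    rcases mul_eq_zero.1 h1 with h | h
    · exact h
    · exact absurd (sub_eq_zero.1 h) hζne
  have hzc : ∀ t s : ℕ, t ≡ s [MOD q] → ζ ^ t * (starRingEnd ℂ) (ζ ^ s) = 1 := by
    intro t s hts
    have h1 : ζ ^ t = ζ ^ s := by
      rw [pow_eq_pow_mod t hζq, pow_eq_pow_mod s hζq, hts]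
    rw [h1, map_pow, ← mul_pow, hζc, one_pow]
  -- the sums
  let S : Fin v → Fin v → ℂ := fun a c => ∑ t ∈ range Q, (A a ((π ^ t) c) : ℂ) * ζ ^ t
  have hS : ∀ a c, S a c = ∑ t ∈ range Q, (A a ((π ^ t) c) : ℂ) * ζ ^ t := fun a c => rfl
  have hSfix : ∀ a c, π c = c → S a c = 0 := by
    intro a c hc
    have h1 : ∀ t : ℕ, (π ^ t) c = c := by
      intro t
      induction t with
      | zero => simp
      | succ t ih => rw [pow_succ, Equiv.Perm.mul_apply, hc, ih]
    rw [hS]
    have h2 : ∀ t ∈ range Q, (A a ((π ^ t) c) : ℂ) * ζ ^ t = (A a c : ℂ) * ζ ^ t := by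
      intro t _
      rw [h1]
    rw [Finset.sum_congr rfl h2, ← Finset.mul_sum, hsum, mul_zero]
  have hSshift : ∀ a c, ζ * S a (π c) = S a c := by
    intro a c
    have h1 : ζ * S a (π c) = ∑ t ∈ range Q, (A a ((π ^ (t + 1)) c) : ℂ) * ζ ^ (t + 1) := by
      rw [hS, Finset.mul_sum]
      refine Finset.sum_congr rfl fun t _ => ?_
      rw [pow_succ π t, Equiv.Perm.mul_apply, pow_succ]
      ring
    rw [h1, hS]
    have h2 := Finset.sum_range_succ (fun t => (A a ((π ^ t) c) : ℂ) * ζ ^ t) Q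
    have h3 := Finset.sum_range_succ' (fun t => (A a ((π ^ t) c) : ℂ) * ζ ^ t) Q
    rw [h2] at h3
    have h4 : (A a ((π ^ Q) c) : ℂ) * ζ ^ Q = (A a ((π ^ 0) c) : ℂ) * ζ ^ 0 := by
      rw [hπ, hζQ, pow_zero, pow_zero]
    rw [h4] at h3
    exact (add_right_cancel h3).symm
  let F : Fin v → ℂ := fun c => S (x i) c * (starRingEnd ℂ) (S (x i') c)
  have hF : ∀ c, F c = S (x i) c * (starRingEnd ℂ) (S (x i') c) := fun c => rfl
  have hFshift : ∀ c, F (π c) = F c := by
    intro c
    rw [hF, hF, ← hSshift (x i) c, ← hSshift (x i') c, map_mul]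
    linear_combination -(S (x i) (π c) * (starRingEnd ℂ) (S (x i') (π c))) * hζc
  have hFpow : ∀ (t : ℕ) c, F ((π ^ t) c) = F c := by
    intro t
    induction t with
    | zero => intro c; simp
    | succ t ih =>
      intro c
      rw [pow_succ, Equiv.Perm.mul_apply, ih, hFshift]
  have hFfix : ∀ c, π c = c → F c = 0 := by
    intro c hc
    rw [hF, hSfix _ _ hc, zero_mul]
  have hL : ∑ c, F c = ∑ j, (q : ℂ) ^ e' j * F (b j) := by
    have h1 : ∑ c, F c = ∑ c ∈ univ.filter (fun c => π c ≠ c), F c := by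
      rw [Finset.sum_filter]
      refine Finset.sum_congr rfl fun c _ => ?_
      by_cases hc : π c = c
      · rw [if_neg (by simpa using hc), hFfix c hc]
      · rw [if_pos hc]
    have h2 : ∑ c ∈ univ.filter (fun c => π c ≠ c), F c =
        ∑ p ∈ (univ : Finset (Fin m')).sigma (fun j => range (q ^ e' j)),
          F ((π ^ p.2) (b p.1)) := by
      symm
      refine Finset.sum_bij (fun p _ => (π ^ p.2) (b p.1)) ?_ ?_ ?_ ?_
      · rintro ⟨j, t⟩ hp
        rw [Finset.mem_sigma, Finset.mem_range] at hp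
        rw [Finset.mem_filter]
        exact ⟨Finset.mem_univ _, (hfb _).2 ⟨j, t, hp.2, rfl⟩⟩
      · rintro ⟨j, t⟩ hp ⟨j', t'⟩ hp' h
        rw [Finset.mem_sigma, Finset.mem_range] at hp hp'
        obtain ⟨h3, h4⟩ := hinjb j j' t t' hp.2 hp'.2 h
        subst h3
        subst h4
        rfl
      · intro c hc
        rw [Finset.mem_filter] at hc
        obtain ⟨j, t, ht, hjt⟩ := (hfb c).1 hc.2
        exact ⟨⟨j, t⟩, Finset.mem_sigma.2 ⟨Finset.mem_univ _, Finset.mem_range.2 ht⟩, hjt⟩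
      · intro p _
        rfl
    rw [h1, h2, Finset.sum_sigma]
    refine Finset.sum_congr rfl fun j _ => ?_
    rw [Finset.sum_congr rfl fun t _ => hFpow t (b j), Finset.sum_const, Finset.card_range,
      nsmul_eq_mul]
    push_cast
    rfl
  -- the second evaluation
  have hrow : ∀ a a' : Fin v, ∑ c, (A a c : ℂ) * (A a' c : ℂ) =
      (if a = a' then (n : ℂ) else 0) + lam := by
    intro a a'
    have h2 := congrFun (congrFun hAA a) a'
    rw [Matrix.mul_apply] at h2
    have h3 : ∑ c, A a c * A a' c = (if a = a' then (n : ℤ) else 0) + lam := by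
      have h4 : ∑ c, A a c * A a' c = ∑ c, A a c * A.transpose c a' := rfl
      rw [h4, h2, Matrix.add_apply, Matrix.smul_apply, Matrix.smul_apply, Matrix.one_apply,
        Matrix.of_apply, smul_eq_mul, smul_eq_mul, mul_one, mul_ite, mul_one, mul_zero]
    have h5 := congrArg (fun z : ℤ => (z : ℂ)) h3
    push_cast at h5
    exact h5
  have hmove : ∀ (a c : Fin v) (t : ℕ), t ≤ Q → A a ((π ^ t) c) = A ((g ^ (Q - t)) a) c := by
    intro a c t ht
    have h1 := gram_inv A g π hA t ((g ^ (Q - t)) a) c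
    rw [← Equiv.Perm.mul_apply, ← pow_add] at h1
    have h2 : t + (Q - t) = Q := by omega
    rw [h2, hg, Equiv.Perm.one_apply] at h1
    exact h1
  have hR : ∑ c, F c = ∑ t ∈ range Q, ∑ s ∈ range Q, ζ ^ t * (starRingEnd ℂ) (ζ ^ s) *
      ((if (g ^ (Q - t)) (x i) = (g ^ (Q - s)) (x i') then (n : ℂ) else 0) + lam) := by
    have h1 : ∀ c, F c = ∑ t ∈ range Q, ∑ s ∈ range Q, ζ ^ t * (starRingEnd ℂ) (ζ ^ s) *
        ((A ((g ^ (Q - t)) (x i)) c : ℂ) * (A ((g ^ (Q - s)) (x i')) c : ℂ)) := by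
      intro c
      rw [hF, hS, hS, map_sum, Finset.sum_mul_sum]
      refine Finset.sum_congr rfl fun t ht => Finset.sum_congr rfl fun s hs => ?_
      rw [hmove _ _ t (Finset.mem_range.1 ht).le, hmove _ _ s (Finset.mem_range.1 hs).le, map_mul,
        map_intCast]
      ring
    rw [Finset.sum_congr rfl fun c _ => h1 c, Finset.sum_comm]
    refine Finset.sum_congr rfl fun t _ => ?_
    rw [Finset.sum_comm]
    refine Finset.sum_congr rfl fun s _ => ?_
    rw [← Finset.mul_sum, hrow]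
  have hlam : ∑ t ∈ range Q, ∑ s ∈ range Q, ζ ^ t * (starRingEnd ℂ) (ζ ^ s) * (lam : ℂ) = 0 := by
    have h1 : ∀ t ∈ range Q, ∑ s ∈ range Q, ζ ^ t * (starRingEnd ℂ) (ζ ^ s) * (lam : ℂ) =
        ζ ^ t * (∑ s ∈ range Q, (starRingEnd ℂ) (ζ ^ s) * (lam : ℂ)) := by
      intro t _
      rw [Finset.mul_sum]
      refine Finset.sum_congr rfl fun s _ => by ring
    rw [Finset.sum_congr rfl h1, ← Finset.sum_mul, hsum, zero_mul]
  have hgoal : ∑ j, (q : ℂ) ^ e' j * (∑ t ∈ range Q, (A (x i) ((π ^ t) (b j)) : ℂ) * ζ ^ t) *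
      (starRingEnd ℂ) (∑ t ∈ range Q, (A (x i') ((π ^ t) (b j)) : ℂ) * ζ ^ t) = ∑ c, F c := by
    rw [hL]
    refine Finset.sum_congr rfl fun j _ => ?_
    rw [hF, hS, hS]
    ring
  rw [hgoal, hR]
  simp only [mul_add, Finset.sum_add_distrib]
  rw [hlam, add_zero]
  have hbr : ∀ t s : ℕ, (g ^ t) (x i) = (g ^ s) (x i') → i = i' ∧ t ≡ s [MOD q ^ e i] := by
    intro t s h
    rw [gram_mod g (x i) (q ^ e i) (hex i) t, gram_mod g (x i') (q ^ e i') (hex i') s] at h
    obtain ⟨h1, h2⟩ := hinj i i' _ _ (Nat.mod_lt _ (pow_pos hq.pos _))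
      (Nat.mod_lt _ (pow_pos hq.pos _)) h
    subst h1
    exact ⟨rfl, h2⟩
  by_cases hii : i = i'
  · subst hii
    rw [if_pos rfl]
    have hDQ : q ^ e i ∣ Q := pow_dvd_pow q (he i).2
    have hcond : ∀ t < Q, ∀ s < Q, ((g ^ (Q - t)) (x i) = (g ^ (Q - s)) (x i) ↔
        s ≡ t [MOD q ^ e i]) := by
      intro t ht s hs
      constructor
      · intro h
        have h1 := (hbr _ _ h).2
        have h2 : Q - t + (t + s) ≡ Q - s + (t + s) [MOD q ^ e i] := Nat.ModEq.add_right _ h1
        have h3 : Q - t + (t + s) = Q + s := by omega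
        have h4 : Q - s + (t + s) = Q + t := by omega
        rw [h3, h4] at h2
        exact Nat.ModEq.add_left_cancel' Q h2
      · intro h
        have h1 : Q - t ≡ Q - s [MOD q ^ e i] := by
          have h2 : (t + s) + (Q - t) ≡ (t + s) + (Q - s) [MOD q ^ e i] := by
            have h3 : (t + s) + (Q - t) = Q + s := by omega
            have h4 : (t + s) + (Q - s) = Q + t := by omega
            rw [h3, h4]
            exact Nat.ModEq.add_left _ h
          exact Nat.ModEq.add_left_cancel' _ h2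
        rw [gram_mod g (x i) (q ^ e i) (hex i) (Q - t),
          gram_mod g (x i) (q ^ e i) (hex i) (Q - s), h1]
    have hin : ∀ t ∈ range Q, ∑ s ∈ range Q, ζ ^ t * (starRingEnd ℂ) (ζ ^ s) *
        (if (g ^ (Q - t)) (x i) = (g ^ (Q - s)) (x i) then (n : ℂ) else 0) =
        (n : ℂ) * (q : ℂ) ^ (r - e i) := by
      intro t ht
      rw [Finset.mem_range] at ht
      have h1 : ∀ s ∈ range Q, ζ ^ t * (starRingEnd ℂ) (ζ ^ s) *
          (if (g ^ (Q - t)) (x i) = (g ^ (Q - s)) (x i) then (n : ℂ) else 0) =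
          if s ≡ t [MOD q ^ e i] then (n : ℂ) else 0 := by
        intro s hs
        rw [Finset.mem_range] at hs
        by_cases h : s ≡ t [MOD q ^ e i]
        · rw [if_pos h, if_pos ((hcond t ht s hs).2 h)]
          have h2 : t ≡ s [MOD q] :=
            (Nat.ModEq.of_dvd (dvd_pow_self q (by have := (he i).1; omega)) h).symm
          rw [hzc t s h2, one_mul]
        · rw [if_neg h, if_neg (fun h' => h ((hcond t ht s hs).1 h')), mul_zero]
      rw [Finset.sum_congr rfl h1, ← Finset.sum_filter, Finset.sum_const, nsmul_eq_mul]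
      have h2 : ((range Q).filter (fun s => s ≡ t [MOD q ^ e i])).card = q ^ (r - e i) := by
        rw [← Nat.count_eq_card_filter_range, Nat.count_modEq_card _ (pow_pos hq.pos _)]
        rw [Nat.mod_eq_zero_of_dvd hDQ]
        simp only [Nat.not_lt_zero, if_false, add_zero]
        rw [hQ, Nat.pow_div (he i).2 hq.pos]
      rw [h2]
      push_cast
      ring
    rw [Finset.sum_congr rfl hin, Finset.sum_const, Finset.card_range, nsmul_eq_mul, hQ]
    push_cast
    have h3 : 2 * r - e i = r + (r - e i) := by have := (he i).2; omega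
    rw [h3, pow_add]
    ring
  · rw [if_neg hii]
    refine Finset.sum_eq_zero fun t _ => Finset.sum_eq_zero fun s _ => ?_
    rw [if_neg (fun h => hii (hbr _ _ h).1), mul_zero]

end Pool.Agent.Helper17.SV
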